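import Pool.Agent.Run7.h717.SA.Iface
import Pool.Agent.H988R2.Gauss

/-! Pieces LI, MSR, POW of project SA (helper717). -/

set_option autoImplicit false

namespace Run7.h631.SA

open MeasureTheory ProbabilityTheory Set
open scoped ENNReal
open Pool.Agent.Run7.h717.SA

theorem meas_LI (n d : ℕ) : MeasurableSet {x : Fin n → E d | LinearIndependent ℝ x} :=
  isOpen_setOfPred_linearIndependent.measurableSet

theorem t_LI : S_LI := by
  intro n d
  induction n with
  | zero =>
    intro _
    exact Filter.Eventually.of_forall fun x => linearIndependent_empty_type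
  | succ n ih =>
    intro hn
    have hih := ih (by omega)
    have hB : MeasurableSet {x : Fin (n + 1) → E d | LinearIndependent ℝ x}ᶜ :=
      (meas_LI (n + 1) d).compl
    have hmp := (measurePreserving_piFinSuccAbove (fun _ : Fin (n + 1) => stdGaussian (E d)) 0).symm
    rw [ae_iff]
    show (GG (n + 1) d) {x : Fin (n + 1) → E d | LinearIndependent ℝ x}ᶜ = 0
    unfold GG
    rw [← hmp.measure_preimage hB.nullMeasurableSet, Measure.prod_apply_symm (hmp.measurable hB)]
    rw [lintegral_eq_zero_iff (measurable_measure_prodMk_right (hmp.measurable hB))]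
    have hih' : ∀ᵐ x ∂(Measure.pi fun i : Fin n => stdGaussian (E d)),
        LinearIndependent ℝ x := hih
    filter_upwards [hih'] with x hx
    have hsub : ((fun a : E d => (a, x)) ⁻¹'
        ((MeasurableEquiv.piFinSuccAbove (fun _ : Fin (n + 1) => E d) 0).symm ⁻¹'
          {x : Fin (n + 1) → E d | LinearIndependent ℝ x}ᶜ)) ⊆
        (Submodule.span ℝ (range x) : Set (E d)) := by
      intro a ha
      by_contra hna
      apply ha
      have h : (MeasurableEquiv.piFinSuccAbove (fun _ : Fin (n + 1) => E d) 0).symm (a, x) =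
          (Fin.cons a x : Fin (n + 1) → E d) := by
        simp [MeasurableEquiv.piFinSuccAbove_symm_apply, Fin.insertNthEquiv]
      show LinearIndependent ℝ
        ((MeasurableEquiv.piFinSuccAbove (fun _ : Fin (n + 1) => E d) 0).symm (a, x))
      rw [h, linearIndependent_finCons]
      exact ⟨hx, hna⟩
    refine measure_mono_null hsub ?_
    refine Pool.Agent.H988R2.stdGaussian_ac (Fin d) ?_
    refine Measure.addHaar_submodule _ _ ?_
    intro htop
    have h1 : Module.finrank ℝ (Submodule.span ℝ (range x)) ≤ n := by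
      have := finrank_range_le_card (R := ℝ) x
      simpa [Set.finrank] using this
    rw [htop, finrank_top, finrank_euclideanSpace_fin] at h1
    omega

/-- the matrix with columns `x i` -/
def mat {d : ℕ} (x : Fin d → E d) : Matrix (Fin d) (Fin d) ℝ := Matrix.of fun j i => x i j

/-- the coordinates of `y` in the basis `x` -/
noncomputable def phi {d : ℕ} (x : Fin d → E d) (y : E d) (i : Fin d) : ℝ :=
  (mat x).det⁻¹ * ((mat x).adjugate.mulVec (fun j => y j)) i

theorem phi_meas {d : ℕ} (i : Fin d) :
    Measurable fun p : (Fin d → E d) × E d => phi p.1 p.2 i := by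
  have hM : Continuous fun p : (Fin d → E d) × E d => mat p.1 := by
    unfold mat
    refine continuous_pi fun j => continuous_pi fun k => ?_
    show Continuous fun p : (Fin d → E d) × E d => p.1 k j
    fun_prop
  have h1 : Continuous fun p : (Fin d → E d) × E d => (mat p.1).det := hM.matrix_det
  have h2 : Continuous fun p : (Fin d → E d) × E d =>
      ((mat p.1).adjugate.mulVec (fun j => p.2 j)) i := by
    have h3 : Continuous fun p : (Fin d → E d) × E d =>
        (mat p.1).adjugate.mulVec (fun j => p.2 j) :=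
      hM.matrix_adjugate.matrix_mulVec (by fun_prop)
    exact (continuous_apply i).comp h3
  exact h1.measurable.inv.mul h2.measurable

/-- the cone -/
def cone {d : ℕ} (x : Fin d → E d) : Set (E d) := {y | ∀ i, 0 ≤ phi x y i}

theorem cone_prod_meas (d : ℕ) :
    MeasurableSet {p : (Fin d → E d) × E d | p.2 ∈ cone p.1} := by
  have : {p : (Fin d → E d) × E d | p.2 ∈ cone p.1} =
      ⋂ i, {p | 0 ≤ phi p.1 p.2 i} := by
    ext p
    simp [cone]
  rw [this]
  exact MeasurableSet.iInter fun i => measurableSet_le measurable_const (phi_meas i)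

theorem cone_meas {d : ℕ} (x : Fin d → E d) : MeasurableSet (cone x) :=
  measurable_prodMk_left (cone_prod_meas d)

theorem det_ne_zero {d : ℕ} {x : Fin d → E d} (hx : LinearIndependent ℝ x) :
    (mat x).det ≠ 0 := by
  have h1 : LinearIndependent ℝ (fun i => (WithLp.linearEquiv 2 ℝ (Fin d → ℝ)) (x i)) :=
    hx.map' (WithLp.linearEquiv 2 ℝ (Fin d → ℝ)).toLinearMap (LinearEquiv.ker _)
  have h2 : LinearIndependent ℝ (mat x).col := h1
  have h3 := Matrix.linearIndependent_cols_iff_isUnit.1 h2
  exact (Matrix.isUnit_iff_isUnit_det _).1 h3 |>.ne_zero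

theorem sum_smul_apply {d : ℕ} (x : Fin d → E d) (c : Fin d → ℝ) :
    (fun j => (∑ i, c i • x i) j) = (mat x).mulVec c := by
  funext j
  rw [Matrix.mulVec, dotProduct]
  simp only [WithLp.ofLp_sum, WithLp.ofLp_smul, Finset.sum_apply, Pi.smul_apply, smul_eq_mul, mat,
    Matrix.of_apply]
  exact Finset.sum_congr rfl fun i _ => mul_comm _ _

theorem pos_eq_cone {d : ℕ} {x : Fin d → E d} (hx : LinearIndependent ℝ x) :
    pos x = cone x := by
  have hdet := det_ne_zero hx
  ext y
  constructor
  · rintro ⟨c, hc, rfl⟩ i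
    have h : phi x (∑ i, c i • x i) i = c i := by
      unfold phi
      rw [sum_smul_apply, Matrix.mulVec_mulVec, Matrix.adjugate_mul, Matrix.smul_mulVec,
        Matrix.one_mulVec, Pi.smul_apply, smul_eq_mul, ← mul_assoc, inv_mul_cancel₀ hdet, one_mul]
    rw [h]
    exact hc i
  · intro hy
    refine ⟨fun i => phi x y i, hy, ?_⟩
    ext j
    have h := congrFun (sum_smul_apply x (fun i => phi x y i)) j
    simp only at h
    rw [h]
    have h2 : (fun i => phi x y i) = (mat x).det⁻¹ • ((mat x).adjugate.mulVec (fun j => y j)) := by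
      funext i
      rfl
    rw [h2, Matrix.mulVec_smul, Matrix.mulVec_mulVec, Matrix.mul_adjugate, Matrix.smul_mulVec,
      Matrix.one_mulVec, smul_smul, inv_mul_cancel₀ hdet, one_smul]

/-- the measurable version of the angle -/
noncomputable def aa (d : ℕ) (x : Fin d → E d) : ℝ := (stdGaussian (E d)).real (cone x)

theorem aa_meas (d : ℕ) : Measurable (aa d) :=
  (measurable_measure_prodMk_left (cone_prod_meas d)).ennreal_toReal

theorem ang_eq {d : ℕ} {x : Fin d → E d} (hx : LinearIndependent ℝ x) : ang x = aa d x := by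
  unfold ang aa
  rw [pos_eq_cone hx]

theorem t_MSR : S_MSR := fun d => ⟨aa d, aa_meas d, fun _ hx => ang_eq hx⟩

theorem ae_LI (d : ℕ) : ∀ᵐ x ∂(GG d d), LinearIndependent ℝ x := t_LI d d le_rfl

instance (n d : ℕ) : IsProbabilityMeasure (GG n d) := by unfold GG; infer_instance

theorem t_POW : S_POW := by
  intro d k
  have hT : MeasurableSet {p : (Fin d → E d) × (Fin k → E d) | ∀ j, p.2 j ∈ cone p.1} := by
    have : {p : (Fin d → E d) × (Fin k → E d) | ∀ j, p.2 j ∈ cone p.1} =
        ⋂ j, (fun p : (Fin d → E d) × (Fin k → E d) => (p.1, p.2 j)) ⁻¹'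
          {p : (Fin d → E d) × E d | p.2 ∈ cone p.1} := by
      ext p
      simp
    rw [this]
    refine MeasurableSet.iInter fun j => ?_
    exact (measurable_fst.prodMk ((measurable_pi_apply j).comp measurable_snd))
      (cone_prod_meas d)
  have h1 : ((GG d d).prod (GG k d)).real {p | ∀ j, p.2 j ∈ pos p.1} =
      ((GG d d).prod (GG k d)).real {p | ∀ j, p.2 j ∈ cone p.1} := by
    apply measureReal_congr
    have h : ∀ᵐ p ∂((GG d d).prod (GG k d)), LinearIndependent ℝ p.1 :=
      Measure.quasiMeasurePreserving_fst.ae (ae_LI d)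
    filter_upwards [h] with p hp
    show (∀ j, p.2 j ∈ pos p.1) = (∀ j, p.2 j ∈ cone p.1)
    rw [pos_eq_cone hp]
  rw [h1]
  have h2 : ((GG d d).prod (GG k d)) {p | ∀ j, p.2 j ∈ cone p.1} =
      ∫⁻ x, ENNReal.ofReal (aa d x ^ k) ∂(GG d d) := by
    rw [Measure.prod_apply hT]
    refine lintegral_congr fun x => ?_
    have h3 : (Prod.mk x ⁻¹' {p : (Fin d → E d) × (Fin k → E d) | ∀ j, p.2 j ∈ cone p.1}) =
        Set.pi univ (fun _ : Fin k => cone x) := by
      ext z
      simp
    rw [h3]
    unfold GG
    rw [Measure.pi_pi, Finset.prod_const, Finset.card_univ, Fintype.card_fin]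
    unfold aa
    rw [Measure.real, ← ENNReal.toReal_pow, ENNReal.ofReal_toReal]
    exact ENNReal.pow_ne_top (measure_ne_top _ _)
  have h4 : mm d k = ∫ x, aa d x ^ k ∂(GG d d) := by
    unfold mm
    refine integral_congr_ae ?_
    filter_upwards [ae_LI d] with x hx
    rw [ang_eq hx]
  rw [h4, Measure.real, h2, integral_eq_lintegral_of_nonneg_ae]
  · exact Filter.Eventually.of_forall fun x => pow_nonneg measureReal_nonneg k
  · exact ((aa_meas d).pow_const k).aestronglyMeasurable

end Run7.h631.SA
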