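import Pool.Agent.Run7.h631.SA.UNI
import Pool.Agent.Run7.h631.SA.LI

/-! Piece SPH of project SA (helper717): the law of the solid angle for uniform vectors on the
sphere is the law of the Gaussian angle for Gaussian vectors. -/

set_option autoImplicit false

namespace Run7.h631.SA

open MeasureTheory ProbabilityTheory Set
open scoped ENNReal
open Pool.Agent.Run7.h717.SA

/-- the direction -/
noncomputable def dir {d : ℕ} (y : E d) : E d := ‖y‖⁻¹ • y

theorem dir_meas {d : ℕ} : Measurable (dir (d := d)) := measurable_norm.inv.smul measurable_id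

theorem pos_smul {d : ℕ} (x : Fin d → E d) (y : E d) (r : ℝ) (hr : 0 ≤ r) (hy : y ∈ pos x) :
    r • y ∈ pos x := by
  obtain ⟨c, hc, rfl⟩ := hy
  refine ⟨fun i => r * c i, fun i => mul_nonneg hr (hc i), ?_⟩
  rw [Finset.smul_sum]
  exact Finset.sum_congr rfl fun i _ => smul_smul _ _ _

theorem dir_mem {d : ℕ} (x : Fin d → E d) (y : E d) : dir y ∈ pos x ↔ y ∈ pos x := by
  constructor
  · intro h
    by_cases hy : y = 0
    · rw [hy]
      exact ⟨fun _ => 0, fun _ => le_rfl, by simp⟩
    · have h1 := pos_smul x (dir y) ‖y‖ (norm_nonneg _) h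
      unfold dir at h1
      rwa [smul_smul, mul_inv_cancel₀ (norm_ne_zero_iff.2 hy), one_smul] at h1
  · intro h
    exact pos_smul x y _ (inv_nonneg.2 (norm_nonneg _)) h

/-- all directions -/
noncomputable def dirs {d : ℕ} (x : Fin d → E d) : Fin d → E d := fun i => dir (x i)

theorem dirs_meas {d : ℕ} : Measurable (dirs (d := d)) :=
  measurable_pi_lambda _ fun i => dir_meas.comp (measurable_pi_apply i)

theorem pos_dirs {d : ℕ} {x : Fin d → E d} (hx : ∀ i, x i ≠ 0) : pos (dirs x) = pos x := by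
  ext y
  constructor
  · rintro ⟨c, hc, rfl⟩
    refine ⟨fun i => c i * ‖x i‖⁻¹, fun i => mul_nonneg (hc i) (inv_nonneg.2 (norm_nonneg _)), ?_⟩
    exact Finset.sum_congr rfl fun i _ => smul_smul _ _ _
  · rintro ⟨c, hc, rfl⟩
    refine ⟨fun i => c i * ‖x i‖, fun i => mul_nonneg (hc i) (norm_nonneg _), ?_⟩
    refine Finset.sum_congr rfl fun i _ => ?_
    show c i • x i = (c i * ‖x i‖) • (‖x i‖⁻¹ • x i)
    rw [smul_smul, mul_assoc, mul_inv_cancel₀ (norm_ne_zero_iff.2 (hx i)), mul_one]

theorem dirs_LI {d : ℕ} {x : Fin d → E d} (hx : LinearIndependent ℝ x) :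
    LinearIndependent ℝ (dirs x) := by
  have h : ∀ i, ‖x i‖⁻¹ ≠ 0 := fun i => inv_ne_zero (norm_ne_zero_iff.2 (hx.ne_zero i))
  exact hx.units_smul fun i => Units.mk0 _ (h i)

theorem solid_eq {d : ℕ} (hd : 1 ≤ d) {x : Fin d → E d} (hx : LinearIndependent ℝ x) :
    solid x = aa d x := by
  unfold solid aa
  rw [← t_UNI d hd, pos_eq_cone hx]
  show ((stdGaussian (E d)).map dir).real (cone x) = _
  rw [map_measureReal_apply dir_meas (cone_meas x)]
  congr 1
  ext y
  show dir y ∈ cone x ↔ y ∈ cone x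
  rw [← pos_eq_cone hx]
  exact dir_mem x y

theorem pi_unif (d : ℕ) (hd : 1 ≤ d) :
    (Measure.pi fun _ : Fin d => unif d) = (GG d d).map dirs := by
  have h : ∀ _ : Fin d, IsProbabilityMeasure ((stdGaussian (E d)).map dir) := fun _ =>
    Measure.isProbabilityMeasure_map dir_meas.aemeasurable
  have h1 := Measure.pi_map_pi (μ := fun _ : Fin d => stdGaussian (E d))
    (f := fun _ : Fin d => (dir : E d → E d)) (hμ := fun i => by have := h i; infer_instance)
    (fun _ => dir_meas.aemeasurable)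
  have h2 : (stdGaussian (E d)).map dir = unif d := t_UNI d hd
  rw [h2] at h1
  exact h1.symm

theorem t_SPH : S_SPH := by
  intro d hd
  have hLI : ∀ᵐ x ∂((GG d d).map dirs), LinearIndependent ℝ x := by
    rw [ae_map_iff dirs_meas.aemeasurable (meas_LI d d)]
    filter_upwards [ae_LI d] with x hx
    exact dirs_LI hx
  have h1 : AEMeasurable (solid (d := d)) ((GG d d).map dirs) := by
    refine ⟨aa d, aa_meas d, ?_⟩
    filter_upwards [hLI] with x hx
    exact solid_eq hd hx
  refine ⟨?_, ?_, ?_⟩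
  · rw [pi_unif d hd]
    exact h1
  · refine ⟨aa d, aa_meas d, ?_⟩
    filter_upwards [ae_LI d] with x hx
    exact ang_eq hx
  · rw [pi_unif d hd, AEMeasurable.map_map_of_aemeasurable h1 dirs_meas.aemeasurable]
    refine Measure.map_congr ?_
    filter_upwards [ae_LI d] with x hx
    show solid (dirs x) = ang x
    rw [solid_eq hd (dirs_LI hx), ← ang_eq (dirs_LI hx)]
    unfold ang
    rw [pos_dirs fun i => hx.ne_zero i]

end Run7.h631.SA
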