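import Pool.Agent.Run7.h717.SA.Iface
import Pool.Agent.H988R2.Gauss

/-! Piece UNI of project SA (helper717): the direction of a Gaussian vector is uniform. -/

set_option autoImplicit false

namespace Run7.h631.SA

open MeasureTheory ProbabilityTheory Set Metric
open scoped ENNReal
open Pool.Agent.Run7.h717.SA

/-- polar coordinates -/
theorem lpolar (d : ℕ) (hd : 1 ≤ d) (g : E d → ℝ≥0∞) (hg : Measurable g) :
    ∫⁻ v, g v = ∫⁻ σ : sphere (0 : E d) 1, (∫⁻ r in Ioi (0 : ℝ),
      ENNReal.ofReal (r ^ (Module.finrank ℝ (E d) - 1)) * g (r • (σ : E d)))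
        ∂(volume : Measure (E d)).toSphere := by
  have : Nonempty (Fin d) := ⟨⟨0, hd⟩⟩
  have hgm : Measurable fun p : sphere (0 : E d) 1 × Ioi (0 : ℝ) =>
      g ((p.2 : ℝ) • (p.1 : E d)) := by
    apply hg.comp
    fun_prop
  calc ∫⁻ v, g v = ∫⁻ x : ({(0 : E d)}ᶜ : Set (E d)), g x
          ∂((volume : Measure (E d)).comap (↑)) := by
        rw [lintegral_subtype_comap (measurableSet_singleton _).compl g,
          restrict_compl_singleton]
    _ = ∫⁻ p, g ((p.2 : ℝ) • (p.1 : E d)) ∂((volume : Measure (E d)).toSphere.prod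
          (.volumeIoiPow (Module.finrank ℝ (E d) - 1))) := by
        have h := (volume : Measure (E d)).measurePreserving_homeomorphUnitSphereProd.lintegral_comp
          hgm
        rw [← h]
        refine lintegral_congr fun x => ?_
        congr 1
        have h1 := homeomorphUnitSphereProd_symm_apply_coe (E d)
          (homeomorphUnitSphereProd (E d) x)
        rw [Homeomorph.symm_apply_apply] at h1
        exact h1
    _ = ∫⁻ σ : sphere (0 : E d) 1, (∫⁻ r : Ioi (0 : ℝ), g ((r : ℝ) • (σ : E d))
          ∂(Measure.volumeIoiPow (Module.finrank ℝ (E d) - 1)))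
            ∂(volume : Measure (E d)).toSphere := by
        rw [lintegral_prod _ hgm.aemeasurable]
    _ = _ := by
        refine lintegral_congr fun σ => ?_
        have hm : Measurable fun r : Ioi (0 : ℝ) => g ((r : ℝ) • (σ : E d)) := by
          apply hg.comp
          fun_prop
        rw [Measure.volumeIoiPow, lintegral_withDensity_eq_lintegral_mul _ (by fun_prop) hm]
        rw [← lintegral_subtype_comap measurableSet_Ioi
          (fun r : ℝ => ENNReal.ofReal (r ^ (Module.finrank ℝ (E d) - 1)) *
            g (r • (σ : E d)))]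
        rfl

/-- the radial part of the density -/
noncomputable def rad (d : ℕ) (r : ℝ) : ℝ :=
  ((Real.sqrt (2 * Real.pi))⁻¹) ^ d * Real.exp (-r ^ 2 / 2)

theorem t_UNI : S_UNI := by
  intro d hd
  have hdir : Measurable fun y : E d => ‖y‖⁻¹ • y := measurable_norm.inv.smul measurable_id
  set c : ℝ≥0∞ := ∫⁻ r in Ioi (0 : ℝ),
    ENNReal.ofReal (r ^ (Module.finrank ℝ (E d) - 1)) * ENNReal.ofReal (rad d r) with hc
  have key : ∀ S : Set (E d), MeasurableSet S →
      (stdGaussian (E d)).map (fun y => ‖y‖⁻¹ • y) S =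
        c * ((volume : Measure (E d)).toSphere.map Subtype.val) S := by
    intro S hS
    rw [Measure.map_apply hdir hS, Pool.Agent.H988R2.stdGaussian_eq,
      withDensity_apply _ (hdir hS), ← lintegral_indicator (hdir hS)]
    have hgm : Measurable (((fun y : E d => ‖y‖⁻¹ • y) ⁻¹' S).indicator
        fun x => ENNReal.ofReal (Pool.Agent.H988R2.gdens (Fin d) x)) :=
      (Pool.Agent.H988R2.continuous_gdens (Fin d)).measurable.ennreal_ofReal.indicator (hdir hS)
    rw [lpolar d hd _ hgm]
    have h1 : ∀ σ : sphere (0 : E d) 1, (∫⁻ r in Ioi (0 : ℝ),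
        ENNReal.ofReal (r ^ (Module.finrank ℝ (E d) - 1)) *
          ((fun y : E d => ‖y‖⁻¹ • y) ⁻¹' S).indicator
            (fun x => ENNReal.ofReal (Pool.Agent.H988R2.gdens (Fin d) x)) (r • (σ : E d))) =
        c * (Subtype.val ⁻¹' S : Set (sphere (0 : E d) 1)).indicator 1 σ := by
      intro σ
      have hσ : ‖(σ : E d)‖ = 1 := by
        have := σ.2
        rwa [mem_sphere_zero_iff_norm] at this
      have h2 : ∀ r ∈ Ioi (0 : ℝ), ENNReal.ofReal (r ^ (Module.finrank ℝ (E d) - 1)) *
          ((fun y : E d => ‖y‖⁻¹ • y) ⁻¹' S).indicator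
            (fun x => ENNReal.ofReal (Pool.Agent.H988R2.gdens (Fin d) x)) (r • (σ : E d)) =
          (ENNReal.ofReal (r ^ (Module.finrank ℝ (E d) - 1)) * ENNReal.ofReal (rad d r)) *
            (Subtype.val ⁻¹' S : Set (sphere (0 : E d) 1)).indicator 1 σ := by
        intro r hr
        have hr0 : 0 < r := hr
        have hn : ‖r • (σ : E d)‖ = r := by
          rw [norm_smul, hσ, mul_one, Real.norm_of_nonneg hr0.le]
        have hd1 : ‖r • (σ : E d)‖⁻¹ • (r • (σ : E d)) = σ := by
          rw [hn, smul_smul, inv_mul_cancel₀ hr0.ne', one_smul]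
        have hg : Pool.Agent.H988R2.gdens (Fin d) (r • (σ : E d)) = rad d r := by
          unfold Pool.Agent.H988R2.gdens rad
          rw [hn, Fintype.card_fin]
        by_cases h : (σ : E d) ∈ S
        · rw [indicator_of_mem (by show ‖r • (σ : E d)‖⁻¹ • (r • (σ : E d)) ∈ S; rwa [hd1]),
            indicator_of_mem (by exact h), hg]
          simp
        · rw [indicator_of_notMem (by
              show ¬ (‖r • (σ : E d)‖⁻¹ • (r • (σ : E d)) ∈ S); rwa [hd1]),
            indicator_of_notMem (by exact h)]
          simp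
      rw [setLIntegral_congr_fun measurableSet_Ioi h2, lintegral_mul_const]
      unfold rad
      fun_prop
    rw [lintegral_congr h1, lintegral_const_mul, lintegral_indicator_one,
      Measure.map_apply measurable_subtype_coe hS]
    · exact measurable_subtype_coe hS
    · exact measurable_one.indicator (measurable_subtype_coe hS)
  have h1 := key univ MeasurableSet.univ
  have hp : (stdGaussian (E d)).map (fun y => ‖y‖⁻¹ • y) univ = 1 := by
    rw [Measure.map_apply hdir MeasurableSet.univ, preimage_univ, measure_univ]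
  rw [hp, Measure.map_apply measurable_subtype_coe MeasurableSet.univ, preimage_univ] at h1
  have hcinv : c = ((volume : Measure (E d)).toSphere univ)⁻¹ :=
    ENNReal.eq_inv_of_mul_eq_one_left h1.symm
  ext S hS
  rw [key S hS, unif, Measure.smul_apply, smul_eq_mul, hcinv]

end Run7.h631.SA
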